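import Mathlib

/-!
# The midpoint Prékopa–Leindler inequality on `Fin k → ℝ`

`prekopa_leindler`: for measurable `f g h : (Fin k → ℝ) → ℝ≥0∞` with
`f (x + y) * g (x - y) ≤ h x ^ 2`, one has `(∫⁻ f) * (∫⁻ g) ≤ (∫⁻ h) ^ 2`.
-/

set_option autoImplicit false

open MeasureTheory Set
open scoped ENNReal

namespace Pool.Agent.PL

theorem bm_compact {K L C : Set ℝ} (hK : IsCompact K) (hL : IsCompact L) (hKn : K.Nonempty)
    (hLn : L.Nonempty) (h : ∀ x ∈ K, ∀ y ∈ L, (x + y) / 2 ∈ C) :
    volume K + volume L ≤ 2 * volume C := by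
  obtain ⟨a, haK, ha⟩ := hK.exists_isMaxOn hKn continuousOn_id
  obtain ⟨b, hbL, hb⟩ := hL.exists_isMinOn hLn continuousOn_id
  have key : ∀ (c : ℝ) (S : Set ℝ), volume ((fun x => (x + c) / 2) ⁻¹' S) = 2 * volume S := by
    intro c S
    have : ((fun x => (x + c) / 2) ⁻¹' S) = (fun x => x + c) ⁻¹' ((· * (2 : ℝ)⁻¹) ⁻¹' S) := by
      ext x; simp [div_eq_mul_inv]
    rw [this, measure_preimage_add_right, Real.volume_preimage_mul_right (by norm_num)]
    simp
  have h1 : volume K ≤ 2 * volume (C ∩ Iic ((a + b) / 2)) := by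
    rw [← key b]
    refine measure_mono fun x hx => ⟨h x hx b hbL, ?_⟩
    have : x ≤ a := ha hx
    show (x + b) / 2 ≤ (a + b) / 2
    linarith
  have h2 : volume L ≤ 2 * volume (C \ Iic ((a + b) / 2)) := by
    rw [← key a, ← measure_sdiff_null (s := L) (t := {b}) (by simp)]
    refine measure_mono fun y hy => ⟨?_, ?_⟩
    · have := h a haK y hy.1
      rw [add_comm a y] at this
      exact this
    · have h3 : b ≤ y := hb hy.1
      have h4 : y ≠ b := hy.2
      have h5 : b < y := lt_of_le_of_ne h3 (Ne.symm h4)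
      simp only [mem_Iic, not_le]
      linarith
  calc volume K + volume L ≤ 2 * volume (C ∩ Iic ((a + b) / 2)) +
        2 * volume (C \ Iic ((a + b) / 2)) := add_le_add h1 h2
    _ = 2 * volume C := by
      rw [← mul_add, measure_inter_add_sdiff _ measurableSet_Iic]

theorem bm_one {A B C : Set ℝ} (hA : MeasurableSet A) (hB : MeasurableSet B) (hAn : A.Nonempty)
    (hBn : B.Nonempty) (h : ∀ x ∈ A, ∀ y ∈ B, (x + y) / 2 ∈ C) :
    volume A + volume B ≤ 2 * volume C := by
  obtain ⟨a, ha⟩ := hAn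
  obtain ⟨b, hb⟩ := hBn
  have e : ∀ {S : Set ℝ}, MeasurableSet S →
      volume S = ⨆ K ∈ {K : Set ℝ | K ⊆ S ∧ IsCompact K}, volume K := by
    intro S hS
    rw [hS.measure_eq_iSup_isCompact volume]
    simp only [mem_ofPred_eq, iSup_and]
  rw [e hA, e hB]
  refine ENNReal.biSup_add_biSup_le ⟨∅, by simp⟩ ⟨∅, by simp⟩ ?_
  rintro K ⟨hKA, hK⟩ L ⟨hLB, hL⟩
  calc volume K + volume L ≤ volume (insert a K) + volume (insert b L) :=
        add_le_add (measure_mono (subset_insert _ _)) (measure_mono (subset_insert _ _))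
    _ ≤ 2 * volume C := by
      refine bm_compact (hK.insert a) (hL.insert b) (insert_nonempty _ _) (insert_nonempty _ _) ?_
      intro x hx y hy
      exact h x (insert_subset ha hKA hx) y (insert_subset hb hLB hy)

/-- Layer cake formula for extended valued functions, with a scale. -/
theorem layer {α : Type*} [MeasurableSpace α] (μ : Measure α) [SFinite μ] {f : α → ℝ≥0∞}
    (hf : Measurable f) {c : ℝ≥0∞} (hc0 : c ≠ 0) (hc : c ≠ ∞) :
    ∫⁻ a, f a ∂μ = c * ∫⁻ t in Ioi (0 : ℝ), μ {a | ENNReal.ofReal t * c < f a} := by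
  have hS : MeasurableSet {z : α × ℝ | ENNReal.ofReal z.2 * c < f z.1} :=
    measurableSet_lt (by fun_prop) (by fun_prop)
  have h1 := Measure.prod_apply (μ := μ) (ν := volume.restrict (Ioi (0 : ℝ))) hS
  have h2 := Measure.prod_apply_symm (μ := μ) (ν := volume.restrict (Ioi (0 : ℝ))) hS
  have h3 : ∀ a, c * (volume.restrict (Ioi (0 : ℝ)))
      (Prod.mk a ⁻¹' {z : α × ℝ | ENNReal.ofReal z.2 * c < f z.1}) = f a := by
    intro a
    rw [Measure.restrict_apply' measurableSet_Ioi]
    by_cases ht : f a = ∞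
    · have : Prod.mk a ⁻¹' {z : α × ℝ | ENNReal.ofReal z.2 * c < f z.1} ∩ Ioi 0 = Ioi 0 := by
        ext t
        simp only [mem_inter_iff, mem_preimage, mem_ofPred_eq, ht, and_iff_right_iff_imp]
        intro _
        exact ENNReal.mul_lt_top ENNReal.ofReal_lt_top hc.lt_top
      rw [this, ht]; simp [hc0]
    · have : Prod.mk a ⁻¹' {z : α × ℝ | ENNReal.ofReal z.2 * c < f z.1} ∩ Ioi 0
          = Ioo 0 (f a / c).toReal := by
        ext t
        simp only [mem_inter_iff, mem_preimage, mem_ofPred_eq, mem_Ioi, mem_Ioo]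
        constructor
        · rintro ⟨h, h0⟩
          refine ⟨h0, ?_⟩
          rw [← ENNReal.lt_div_iff_mul_lt (Or.inl hc0) (Or.inl hc)] at h
          exact (ENNReal.ofReal_lt_iff_lt_toReal h0.le (ENNReal.div_ne_top ht hc0)).1 h
        · rintro ⟨h0, h⟩
          refine ⟨?_, h0⟩
          rw [← ENNReal.lt_div_iff_mul_lt (Or.inl hc0) (Or.inl hc)]
          exact (ENNReal.ofReal_lt_iff_lt_toReal h0.le (ENNReal.div_ne_top ht hc0)).2 h
      rw [this, Real.volume_Ioo, sub_zero, ENNReal.ofReal_toReal (ENNReal.div_ne_top ht hc0),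
        ENNReal.mul_div_cancel hc0 hc]
  calc ∫⁻ a, f a ∂μ = ∫⁻ a, c * ((volume.restrict (Ioi (0 : ℝ)))
          (Prod.mk a ⁻¹' {z : α × ℝ | ENNReal.ofReal z.2 * c < f z.1})) ∂μ := by simp only [h3]
    _ = c * ∫⁻ t in Ioi (0 : ℝ), μ {a | ENNReal.ofReal t * c < f a} := by
      rw [lintegral_const_mul' _ _ hc, ← h1, h2]
      rfl

theorem meas_level {α : Type*} [MeasurableSpace α] (μ : Measure α) [SFinite μ] {f : α → ℝ≥0∞}
    (hf : Measurable f) (c : ℝ≥0∞) :
    Measurable fun t : ℝ => μ {a | ENNReal.ofReal t * c < f a} := by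
  have hS : MeasurableSet {z : ℝ × α | ENNReal.ofReal z.1 * c < f z.2} :=
    measurableSet_lt (by fun_prop) (by fun_prop)
  exact measurable_measure_prodMk_left hS

theorem pl_one_bdd {f g h : ℝ → ℝ≥0∞} (hf : Measurable f) (hg : Measurable g) (hh : Measurable h)
    (hfb : ⨆ x, f x ≠ ∞) (hgb : ⨆ x, g x ≠ ∞)
    (H : ∀ x y, f x * g y ≤ h ((x + y) / 2) ^ 2) :
    (∫⁻ x, f x) * (∫⁻ x, g x) ≤ (∫⁻ x, h x) ^ 2 := by
  set a := ⨆ x, f x with ha
  set b := ⨆ x, g x with hb
  by_cases ha0 : a = 0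
  · have : ∀ x, f x = 0 := fun x => le_antisymm (ha0 ▸ le_iSup f x) (by simp)
    simp [this]
  by_cases hb0 : b = 0
  · have : ∀ x, g x = 0 := fun x => le_antisymm (hb0 ▸ le_iSup g x) (by simp)
    simp [this]
  set c := (a * b) ^ (1 / 2 : ℝ) with hc
  have hc2 : c ^ 2 = a * b := by
    rw [hc, ← ENNReal.rpow_natCast, ← ENNReal.rpow_mul]; norm_num
  have hc0 : c ≠ 0 := by
    intro h0; rw [h0] at hc2; simp [ha0, hb0] at hc2
  have hct : c ≠ ∞ := by
    intro h0; rw [h0] at hc2
    exact absurd hc2.symm (by simpa using ENNReal.mul_ne_top hfb hgb)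
  rw [layer volume hf ha0 hfb, layer volume hg hb0 hgb, layer volume hh hc0 hct]
  set F := ∫⁻ t in Ioi (0 : ℝ), volume {x | ENNReal.ofReal t * a < f x}
  set G := ∫⁻ t in Ioi (0 : ℝ), volume {x | ENNReal.ofReal t * b < g x}
  set K := ∫⁻ t in Ioi (0 : ℝ), volume {x | ENNReal.ofReal t * c < h x}
  have hsum : F + G ≤ 2 * K := by
    rw [← lintegral_add_left (meas_level volume hf a), ← lintegral_const_mul' _ _ (by simp)]
    refine lintegral_mono fun t => ?_
    by_cases ht : t < 1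
    · have hlt : ∀ {d : ℝ≥0∞}, d ≠ 0 → d ≠ ∞ → ENNReal.ofReal t * d < d := by
        intro d hd0 hd
        conv_rhs => rw [← one_mul d]
        exact ENNReal.mul_lt_mul_left hd0 hd (ENNReal.ofReal_lt_one.2 ht)
      refine bm_one (measurableSet_lt measurable_const hf) (measurableSet_lt measurable_const hg)
        (lt_iSup_iff.1 (hlt ha0 hfb)) (lt_iSup_iff.1 (hlt hb0 hgb)) ?_
      intro x hx y hy
      have h1 : (ENNReal.ofReal t * a) * (ENNReal.ofReal t * b) < f x * g y :=
        ENNReal.mul_lt_mul hx hy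
      have h2 : (ENNReal.ofReal t * c) ^ 2 < h ((x + y) / 2) ^ 2 := by
        refine lt_of_lt_of_le (lt_of_eq_of_lt ?_ h1) (H x y)
        rw [mul_pow, hc2]; ring
      exact lt_of_pow_lt_pow_left' 2 h2
    · have h1 : ∀ {d : ℝ≥0∞}, d ≤ ENNReal.ofReal t * d := by
        intro d
        conv_lhs => rw [← one_mul d]
        exact mul_le_mul_left (ENNReal.one_le_ofReal.2 (not_lt.1 ht)) d
      have e1 : {x | ENNReal.ofReal t * a < f x} = ∅ := by
        ext x; simpa using (le_iSup f x).trans h1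
      have e2 : {x | ENNReal.ofReal t * b < g x} = ∅ := by
        ext x; simpa using (le_iSup g x).trans h1
      simp [e1, e2]
  have hFG : F * G ≤ K ^ 2 := by
    clear_value F G K
    by_cases hK : K = ∞
    · simp [hK]
    have hF : F ≠ ∞ := ne_top_of_le_ne_top (ENNReal.mul_ne_top (by simp) hK) (le_self_add.trans hsum)
    have hG : G ≠ ∞ := ne_top_of_le_ne_top (ENNReal.mul_ne_top (by simp) hK) (le_add_self.trans hsum)
    lift F to NNReal using hF
    lift G to NNReal using hG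
    lift K to NNReal using hK
    have h1 : (F : ℝ) + G ≤ 2 * K := by exact_mod_cast hsum
    have h2 : (F : ℝ) * G ≤ K ^ 2 := by nlinarith [sq_nonneg ((F : ℝ) - G), F.2, G.2]
    exact_mod_cast h2
  calc a * F * (b * G) = (a * b) * (F * G) := by ring
    _ ≤ c ^ 2 * K ^ 2 := by rw [hc2]; gcongr
    _ = (c * K) ^ 2 := by ring

theorem pl_one {f g h : ℝ → ℝ≥0∞} (hf : Measurable f) (hg : Measurable g) (hh : Measurable h)
    (H : ∀ x y, f x * g y ≤ h ((x + y) / 2) ^ 2) :
    (∫⁻ x, f x) * (∫⁻ x, g x) ≤ (∫⁻ x, h x) ^ 2 := by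
  have e : ∀ {f : ℝ → ℝ≥0∞}, Measurable f → ∫⁻ x, f x = ⨆ n : ℕ, ∫⁻ x, min (f x) n := by
    intro f hf
    rw [← lintegral_iSup (f := fun (n : ℕ) x => min (f x) n) (fun n => hf.min measurable_const)
      (fun n m hnm x => min_le_min_left _ (by exact_mod_cast hnm))]
    congr 1; ext x
    rw [← inf_iSup_eq]
    simp [ENNReal.iSup_natCast]
  rw [e hf, e hg, ENNReal.iSup_mul]
  refine iSup_le fun n => ?_
  rw [ENNReal.mul_iSup]
  refine iSup_le fun m => ?_
  refine pl_one_bdd (hf.min measurable_const) (hg.min measurable_const) hh ?_ ?_ ?_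
  · exact ne_top_of_le_ne_top (ENNReal.natCast_ne_top n) (iSup_le fun x => min_le_right _ _)
  · exact ne_top_of_le_ne_top (ENNReal.natCast_ne_top m) (iSup_le fun x => min_le_right _ _)
  · intro x y
    exact le_trans (mul_le_mul' (min_le_left _ _) (min_le_left _ _)) (H x y)

/-- Fubini along one coordinate. -/
theorem lintegral_insertNth {k : ℕ} (j : Fin (k + 1)) {f : (Fin (k + 1) → ℝ) → ℝ≥0∞}
    (hf : Measurable f) :
    ∫⁻ z, f z = ∫⁻ t : ℝ, ∫⁻ x : Fin k → ℝ, f (j.insertNth t x) := by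
  have h := (volume_preserving_piFinSuccAbove (fun _ : Fin (k + 1) => ℝ) j).symm
  rw [← h.lintegral_comp hf, Measure.volume_eq_prod, lintegral_prod]
  · rfl
  · exact (hf.comp (MeasurableEquiv.measurable _)).aemeasurable

theorem measurable_insertNth {k : ℕ} (j : Fin (k + 1)) :
    Measurable fun z : ℝ × (Fin k → ℝ) => (j.insertNth z.1 z.2 : Fin (k + 1) → ℝ) :=
  (MeasurableEquiv.piFinSuccAbove (fun _ : Fin (k + 1) => ℝ) j).symm.measurable

theorem pl_mid (k : ℕ) : ∀ {f g h : (Fin k → ℝ) → ℝ≥0∞}, Measurable f → Measurable g →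
    Measurable h → (∀ x y z, (∀ i, z i = (x i + y i) / 2) → f x * g y ≤ h z ^ 2) →
    (∫⁻ x, f x) * (∫⁻ x, g x) ≤ (∫⁻ x, h x) ^ 2 := by
  induction k with
  | zero =>
    intro f g h _ _ _ H
    have hv : (volume : Measure (Fin 0 → ℝ)) univ = 1 := by simp [volume_pi]
    simp only [lintegral_unique, hv, mul_one]
    exact H _ _ _ (fun i => i.elim0)
  | succ k ih =>
    intro f g h hf hg hh H
    rw [lintegral_insertNth 0 hf, lintegral_insertNth 0 hg, lintegral_insertNth 0 hh]
    refine pl_one ?_ ?_ ?_ ?_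
    · exact (hf.comp (measurable_insertNth 0)).lintegral_prod_right'
    · exact (hg.comp (measurable_insertNth 0)).lintegral_prod_right'
    · exact (hh.comp (measurable_insertNth 0)).lintegral_prod_right'
    · intro s t
      refine ih ((hf.comp (measurable_insertNth 0)).comp measurable_prodMk_left)
        ((hg.comp (measurable_insertNth 0)).comp measurable_prodMk_left)
        ((hh.comp (measurable_insertNth 0)).comp measurable_prodMk_left) ?_
      intro x y z hz
      refine H _ _ _ fun i => ?_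
      refine Fin.succAboveCases 0 ?_ (fun i => ?_) i
      · simp
      · simp [hz]

/-- Midpoint Prékopa–Leindler inequality. -/
theorem prekopa_leindler {k : ℕ} {f g h : (Fin k → ℝ) → ℝ≥0∞} (hf : Measurable f)
    (hg : Measurable g) (hh : Measurable h) (H : ∀ x y, f (x + y) * g (x - y) ≤ h x ^ 2) :
    (∫⁻ x, f x) * (∫⁻ x, g x) ≤ (∫⁻ x, h x) ^ 2 := by
  refine pl_mid k hf hg hh fun x y z hz => ?_
  have h1 := H z (fun i => (x i - y i) / 2)
  have e1 : (z + fun i => (x i - y i) / 2) = x := by ext i; simp [hz]; ring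
  have e2 : (z - fun i => (x i - y i) / 2) = y := by ext i; simp [hz]; ring
  rwa [e1, e2] at h1

end Pool.Agent.PL
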